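import Pool.Agent.H918.G.Defs

/-! PROJECT PF, PF-CHAIN. -/

set_option autoImplicit false

open Polynomial FF Pool.Agent.W603.LV Filter Topology Metric
open scoped Polynomial.Bivariate

namespace Pool.Agent.H918.PF

namespace H767

variable {L : Type} [Field L] [Algebra ℂ L] {ev : ℂ[X][Y] →ₐ[ℂ] L}

/-- the derivative of the coefficients -/
noncomputable def dZ (R : ℂ[X][Y]) : ℂ[X][Y] := R.sum fun k r => monomial k (derivative r)

theorem dZ_add (R S : ℂ[X][Y]) : dZ (R + S) = dZ R + dZ S := by
  unfold dZ
  apply Polynomial.sum_add_index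
  · intro i
    simp
  · intro i a b
    simp

theorem dZ_monomial (k : ℕ) (r : ℂ[X]) : dZ (monomial k r) = monomial k (derivative r) := by
  unfold dZ
  exact Polynomial.sum_monomial_index r (fun k r => monomial k (derivative r)) (by simp)

theorem ev_CC (a : ℂ) : ev (C (C a)) = algebraMap ℂ L a := by
  have := ev.commutes a
  rw [← this]
  rfl

theorem D_C (D : Derivation ℂ L L) (hD : D (ev (C X)) = 1) (r : ℂ[X]) :
    D (ev (C r)) = ev (C (derivative r)) := by
  induction r using Polynomial.induction_on' with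
  | add p q hp hq => simp only [map_add, hp, hq]
  | monomial n a =>
    rw [← C_mul_X_pow_eq_monomial, C_mul, C_pow, map_mul, map_pow, ev_CC, Derivation.leibniz,
      Derivation.map_algebraMap, smul_zero, add_zero, Derivation.leibniz_pow, hD,
      derivative_C_mul_X_pow, C_mul, C_pow, map_mul, map_pow, C_mul, C_mul, map_mul, ev_CC, ev_CC]
    simp only [smul_eq_mul, nsmul_eq_mul, mul_one]
    rw [map_natCast (algebraMap ℂ L)]
    ring

theorem D_ev (D : Derivation ℂ L L) (hD : D (ev (C X)) = 1) (R : ℂ[X][Y]) :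
    D (ev R) = ev (dZ R) + ev (derivative R) * D (ev X) := by
  induction R using Polynomial.induction_on' with
  | add p q hp hq =>
    rw [map_add, map_add, hp, hq, dZ_add, derivative_add, map_add, map_add]
    ring
  | monomial n r =>
    rw [dZ_monomial, ← C_mul_X_pow_eq_monomial, ← C_mul_X_pow_eq_monomial, map_mul, map_pow,
      Derivation.leibniz, Derivation.leibniz_pow, D_C D hD, derivative_C_mul_X_pow, map_mul,
      map_mul, map_pow, map_pow, C_mul, map_mul]
    have h1 : ev (C ((n : ℂ[X]))) = (n : L) := by simp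
    rw [h1]
    simp only [smul_eq_mul, nsmul_eq_mul]
    ring

theorem hasDerivAt_ev (R : ℂ[X][Y]) (g : ℂ → ℂ) (g' z : ℂ) (hg : HasDerivAt g g' z) :
    HasDerivAt (fun w => evalEval w (g w) R)
      (evalEval z (g z) (dZ R) + evalEval z (g z) (derivative R) * g') z := by
  induction R using Polynomial.induction_on' with
  | add p q hp hq =>
    have h1 := hp.add hq
    have h2 : (fun w => evalEval w (g w) (p + q)) =
        (fun w => evalEval w (g w) p) + fun w => evalEval w (g w) q := by
      funext w
      simp [evalEval]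
    rw [h2, dZ_add, derivative_add, evalEval_add, evalEval_add]
    refine h1.congr_deriv ?_
    ring
  | monomial n r =>
    have h1 : HasDerivAt (fun w => r.eval w * g w ^ n)
        ((derivative r).eval z * g z ^ n + r.eval z * ((n : ℂ) * g z ^ (n - 1) * g')) z :=
      (r.hasDerivAt z).mul (hg.pow n)
    have h2 : (fun w => evalEval w (g w) (monomial n r)) = fun w => r.eval w * g w ^ n := by
      funext w
      rw [← C_mul_X_pow_eq_monomial]
      simp [evalEval]
    rw [h2, dZ_monomial, ← C_mul_X_pow_eq_monomial, ← C_mul_X_pow_eq_monomial,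
      derivative_C_mul_X_pow]
    refine h1.congr_deriv ?_
    simp [evalEval]
    ring

end H767

variable {L : Type} [Field L] [Algebra ℂ L] {c : Place ℂ L} {ev : ℂ[X][Y] →ₐ[ℂ] L} {P : ℂ[X][Y]}

open H767 in
/-- PF-CHAIN: the derivation `d / dZ` and the derivative along a branch. -/
theorem chain (hM : Model c ev P) {D : Derivation ℂ L L} (hD : D (ev (C X)) = 1) {B₀ : Finset ℂ}
    (hs : SepOff P B₀) {h : L} {R R₁ : ℂ[X][Y]} {S S₁ : ℂ[X]} (h1 : h * ev (C S) = ev R)
    (h2 : D h * ev (C S₁) = ev R₁) {U : Set ℂ} (hU : IsOpen U) (hUB : ∀ z ∈ U, z ∉ B₀) {g : ℂ → ℂ}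
    (hg : Branch P U g) {z : ℂ} (hz : z ∈ U) (hS : S.eval z ≠ 0) (hS₁ : S₁.eval z ≠ 0) :
    HasDerivAt (fun w => evalEval w (g w) R / S.eval w) (evalEval z (g z) R₁ / S₁.eval z) z := by
  -- the branch
  have hgd : HasDerivAt g (deriv g z) z :=
    ((hg.diff z hz).differentiableAt (hU.mem_nhds hz)).hasDerivAt
  set g' := deriv g z with hg'
  -- the algebraic identity
  have hP0 : ev P = 0 := (hM.ker P).2 dvd_rfl
  have e1 : ev (dZ P) + ev (derivative P) * D (ev X) = 0 := by
    rw [← D_ev D hD P, hP0, map_zero]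
  have e2 : ev (C S) * D h + h * ev (C (derivative S)) =
      ev (dZ R) + ev (derivative R) * D (ev X) := by
    rw [← D_ev D hD R, ← h1, Derivation.leibniz, D_C D hD]
    simp only [smul_eq_mul]
    ring
  let W : ℂ[X][Y] := R₁ * C S ^ 2 * derivative P + R * C (derivative S) * C S₁ * derivative P -
    dZ R * C S * C S₁ * derivative P + derivative R * C S * C S₁ * dZ P
  have hW : ev W = 0 := by
    simp only [W, map_add, map_sub, map_mul, map_pow]
    rw [← h1, ← h2]
    linear_combination (ev (C S) * ev (C S₁) * ev (derivative P)) * e2 +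
      (ev (derivative R) * ev (C S) * ev (C S₁)) * e1
  obtain ⟨T, hT⟩ := (hM.ker W).1 hW
  have hroot : evalEval z (g z) P = 0 := hg.root z hz
  have hW0 : evalEval z (g z) W = 0 := by
    rw [hT, evalEval_mul, hroot, zero_mul]
  simp only [W, evalEval_add, evalEval_sub, evalEval_mul, evalEval_pow, evalEval_C] at hW0
  -- the derivative of the branch
  have hPd := hasDerivAt_ev P g g' z hgd
  have hPz : HasDerivAt (fun w => evalEval w (g w) P) 0 z := by
    apply (hasDerivAt_const z (0 : ℂ)).congr_of_eventuallyEq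
    filter_upwards [hU.mem_nhds hz] with w hw
    exact hg.root w hw
  have e3 := hPd.unique hPz
  have hPY : evalEval z (g z) (derivative P) ≠ 0 := by
    have h3 := hs z (hUB z hz)
    have h4 : (P.map (evalRingHom z)).IsRoot (g z) := by
      rw [IsRoot.def, map_evalRingHom_eval]
      exact hroot
    have h5 := h3.aeval_derivative_ne_zero (x := g z) (by
      rw [coe_aeval_eq_eval]
      exact h4)
    rw [coe_aeval_eq_eval, derivative_map, map_evalRingHom_eval] at h5
    exact h5
  have hRd := (hasDerivAt_ev R g g' z hgd).div (S.hasDerivAt z) hS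
  refine hRd.congr_deriv ?_
  rw [div_eq_div_iff (pow_ne_zero 2 hS) hS₁]
  apply mul_right_cancel₀ hPY
  linear_combination (evalEval z (g z) (derivative R) * S.eval z * S₁.eval z) * e3 - hW0

end Pool.Agent.H918.PF
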